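import Pool.Agent.Helper57.SS.Goals

/-!
# SS: LF2, the second bound for the limit functional
-/

set_option autoImplicit false

namespace Pool.Agent.Helper93.SS

open Pool.Agent.Helper57.SS
open MeasureTheory ProbabilityTheory Filter Topology
open scoped ComplexConjugate

section

variable {α : Type} [MeasurableSpace α]

lemma bd_int {μ : Measure α} [IsProbabilityMeasure μ] {f : α → ℝ} (hf : Measurable f) {c : ℝ}
    (h : ∀ x, |f x| ≤ c) : Integrable f μ := by
  refine Integrable.of_bound hf.aestronglyMeasurable c ?_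
  exact Filter.Eventually.of_forall fun x => by rw [Real.norm_eq_abs]; exact h x

lemma int_zp (hZP : G_ZP) {μ : Measure α} (R : α ≃ᵐ α) (hR : MeasurePreserving (⇑R) μ μ)
    {F : α → ℝ} (hF : Measurable F) (m : ℤ) : ∫ x, F (zp R m x) ∂μ = ∫ x, F x ∂μ := by
  obtain ⟨-, -, -, -, -, h6, -⟩ := hZP α R
  have hm := h6 μ hR m
  have h1 := integral_map (μ := μ) hm.measurable.aemeasurable
    (f := F) hF.aestronglyMeasurable
  rw [hm.map_eq] at h1
  exact h1.symm

lemma comm_iter (hZP : G_ZP) (R T : α ≃ᵐ α) (h : ∀ x, R (T x) = T (R x)) (k : ℕ) (m : ℤ) (x : α) :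
    (⇑T)^[k] (zp R m x) = zp R m ((⇑T)^[k] x) := by
  obtain ⟨-, -, -, -, -, -, h7⟩ := hZP α R
  have hc : Function.Commute (⇑R) (⇑T) := h
  exact (h7 ((⇑T)^[k]) (fun y => (hc.iterate_right k) y) m x).symm

/-- Jensen for bounded functions. -/
lemma sq_int_le {μ : Measure α} [IsProbabilityMeasure μ] {u : α → ℝ} (hu : Measurable u) {c : ℝ}
    (h : ∀ x, |u x| ≤ c) : (∫ x, u x ∂μ) ^ 2 ≤ ∫ x, u x ^ 2 ∂μ := by
  set m := ∫ x, u x ∂μ with hm
  have hi : Integrable u μ := bd_int hu h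
  have hi2 : Integrable (fun x => u x ^ 2) μ := by
    refine bd_int (hu.pow_const 2) (c := c ^ 2) fun x => ?_
    rw [abs_pow]
    exact pow_le_pow_left₀ (abs_nonneg _) (h x) 2
  have h1 : 0 ≤ ∫ x, (u x - m) ^ 2 ∂μ := integral_nonneg fun x => sq_nonneg _
  have h2 : ∫ x, (u x - m) ^ 2 ∂μ = (∫ x, u x ^ 2 ∂μ) - m ^ 2 := by
    have e : (fun x => (u x - m) ^ 2) = fun x => u x ^ 2 - (2 * m) * u x + m ^ 2 := by
      funext x; ring
    have e1 : ∫ x, (u x ^ 2 - (2 * m) * u x + m ^ 2) ∂μ =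
        (∫ x, (u x ^ 2 - (2 * m) * u x) ∂μ) + ∫ _x, m ^ 2 ∂μ :=
      integral_add (f := fun x => u x ^ 2 - (2 * m) * u x) (g := fun _ => m ^ 2)
        (hi2.sub (hi.const_mul _)) (integrable_const _)
    have e2 : ∫ x, (u x ^ 2 - (2 * m) * u x) ∂μ =
        (∫ x, u x ^ 2 ∂μ) - ∫ x, (2 * m) * u x ∂μ :=
      integral_sub (f := fun x => u x ^ 2) (g := fun x => (2 * m) * u x) hi2 (hi.const_mul _)
    rw [e, e1, e2, integral_const_mul, ← hm]
    simp
    ring
  linarith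

lemma norm_sq_sum (s : Finset (ℤ × ℤ)) (c : ℤ × ℤ → ℂ) (w : ℤ × ℤ → ℝ) :
    ‖∑ p ∈ s, c p * ((w p : ℝ) : ℂ)‖ ^ 2 =
      ∑ p ∈ s, ∑ q ∈ s, (c p * conj (c q)).re * (w p * w q) := by
  have h1 : ((‖∑ p ∈ s, c p * ((w p : ℝ) : ℂ)‖ ^ 2 : ℝ) : ℂ) =
      ∑ p ∈ s, ∑ q ∈ s, c p * conj (c q) * ((w p * w q : ℝ) : ℂ) := by
    have h2 := Complex.mul_conj' (∑ p ∈ s, c p * ((w p : ℝ) : ℂ))
    push_cast at h2 ⊢
    rw [← h2, map_sum, Finset.sum_mul_sum]
    refine Finset.sum_congr rfl fun p _ => Finset.sum_congr rfl fun q _ => ?_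
    rw [map_mul, Complex.conj_ofReal]
    ring
  have h3 := congrArg Complex.re h1
  rw [Complex.ofReal_re] at h3
  rw [h3, Complex.re_sum]
  refine Finset.sum_congr rfl fun p _ => ?_
  rw [Complex.re_sum]
  refine Finset.sum_congr rfl fun q _ => ?_
  rw [Complex.re_mul_ofReal]

lemma re_sum2 (c : (ℤ × ℤ) →₀ ℂ) (X : ℤ × ℤ → ℤ × ℤ → ℝ) :
    (c.sum fun p u => c.sum fun q v => u * conj v * ((X p q : ℝ) : ℂ)).re =
      ∑ p ∈ c.support, ∑ q ∈ c.support, (c p * conj (c q)).re * X p q := by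
  unfold Finsupp.sum
  rw [Complex.re_sum]
  refine Finset.sum_congr rfl fun p _ => ?_
  rw [Complex.re_sum]
  refine Finset.sum_congr rfl fun q _ => ?_
  rw [Complex.re_mul_ofReal]

end

/-- the inequality for one `N` and one `h` -/
theorem one_step (hZP : G_ZP) {α : Type} [MeasurableSpace α] (μ : Measure α)
    [IsProbabilityMeasure μ] (T S R : α ≃ᵐ α) (a b : ℕ → ℕ) (hs : Sys μ T S R) {f g h : α → ℝ}
    (hf : Bd f) (hg : Bd g) (hh : Bd h) (N : ℕ) (c : (ℤ × ℤ) →₀ ℂ) :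
    ‖c.sum fun p u => u * ((PhN T S R μ a b f g h N p : ℝ) : ℂ)‖ ^ 2 ≤
      ∑ p ∈ c.support, ∑ q ∈ c.support, (c p * conj (c q)).re *
        ((N : ℝ)⁻¹ * ∑ k ∈ Finset.range N, ∫ x, (h (zp R (-p.2) x) * h (zp R (-q.2) x)) *
          (f (zp R (p.1 - p.2) ((⇑T)^[a k] x)) * f (zp R (q.1 - q.2) ((⇑T)^[a k] x))) ∂μ) := by
  obtain ⟨z0, z1, z2, z3, z4, z5, z6⟩ := hZP α R
  have hTm : ∀ k, Measurable ((⇑T)^[k]) := fun k => T.measurable.iterate k
  have hSm : ∀ k, Measurable ((⇑S)^[k]) := fun k => S.measurable.iterate k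
  -- the factors
  set w : ℕ → ℤ × ℤ → α → ℝ := fun k p x =>
    h (zp R (-p.2) x) * f (zp R (p.1 - p.2) ((⇑T)^[a k] x)) with hw
  have hwm : ∀ k p, Measurable (w k p) := fun k p =>
    (hh.1.comp (z4 _)).mul (hf.1.comp ((z4 _).comp (hTm _)))
  have hwb : ∀ k p x, |w k p x| ≤ 1 := by
    intro k p x
    simp only [hw, abs_mul]
    exact mul_le_one₀ (hh.2 _) (abs_nonneg _) (hf.2 _)
  set W : ℕ → α → ℂ := fun k x => ∑ p ∈ c.support, c p * ((w k p x : ℝ) : ℂ) with hW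
  have hWm : ∀ k, Measurable (W k) := by
    intro k
    refine Finset.measurable_sum _ fun p _ => ?_
    exact (Complex.measurable_ofReal.comp (hwm k p)).const_mul _
  have hWb : ∀ k x, ‖W k x‖ ≤ ∑ p ∈ c.support, ‖c p‖ := by
    intro k x
    refine (norm_sum_le _ _).trans (Finset.sum_le_sum fun p _ => ?_)
    rw [norm_mul, Complex.norm_real, Real.norm_eq_abs]
    exact mul_le_of_le_one_right (norm_nonneg _) (hwb k p x)
  -- the functional
  have hph : ∀ p, PhN T S R μ a b f g h N p =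
      (N : ℝ)⁻¹ * ∑ k ∈ Finset.range N, ∫ x, g ((⇑S)^[b k] x) * w k p x ∂μ := by
    intro p
    unfold PhN
    congr 1
    refine Finset.sum_congr rfl fun k _ => ?_
    have hm : Measurable (fun x => h x * f (zp R p.1 ((⇑T)^[a k] x)) *
        g (zp R p.2 ((⇑S)^[b k] x))) :=
      (hh.1.mul (hf.1.comp ((z4 _).comp (hTm _)))).mul (hg.1.comp ((z4 _).comp (hSm _)))
    rw [← int_zp hZP R hs.mR hm (-p.2)]
    refine integral_congr_ae (Filter.Eventually.of_forall fun x => ?_)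
    simp only [hw]
    rw [comm_iter hZP R T hs.cRT, comm_iter hZP R S hs.cRS, ← z3, ← z3]
    have e1 : p.2 + -p.2 = 0 := by ring
    rw [e1, z0, ← sub_eq_add_neg]
    ring
  have hsum : (c.sum fun p u => u * ((PhN T S R μ a b f g h N p : ℝ) : ℂ)) =
      (N : ℂ)⁻¹ * ∑ k ∈ Finset.range N, ∫ x, ((g ((⇑S)^[b k] x) : ℝ) : ℂ) * W k x ∂μ := by
    unfold Finsupp.sum
    have h1 : ∀ k, ∫ x, ((g ((⇑S)^[b k] x) : ℝ) : ℂ) * W k x ∂μ =
        ∑ p ∈ c.support, c p * ((∫ x, g ((⇑S)^[b k] x) * w k p x ∂μ : ℝ) : ℂ) := by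
      intro k
      have h2 : ∀ x, ((g ((⇑S)^[b k] x) : ℝ) : ℂ) * W k x =
          ∑ p ∈ c.support, c p * ((g ((⇑S)^[b k] x) * w k p x : ℝ) : ℂ) := by
        intro x
        simp only [hW, Finset.mul_sum]
        refine Finset.sum_congr rfl fun p _ => ?_
        push_cast
        ring
      rw [integral_congr_ae (Filter.Eventually.of_forall h2), integral_finsetSum]
      · refine Finset.sum_congr rfl fun p _ => ?_
        rw [integral_const_mul]
        congr 1
        exact integral_complex_ofReal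
      · intro p _
        refine Integrable.const_mul ?_ _
        have hi : Integrable (fun x => g ((⇑S)^[b k] x) * w k p x) μ := by
          refine bd_int ((hg.1.comp (hSm _)).mul (hwm k p)) (c := 1) fun x => ?_
          rw [abs_mul]
          exact mul_le_one₀ (hg.2 _) (abs_nonneg _) (hwb k p x)
        exact hi.ofReal
    simp only [h1, hph]
    rw [Finset.sum_comm, Finset.mul_sum]
    refine Finset.sum_congr rfl fun p _ => ?_
    push_cast
    rw [← Finset.mul_sum]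
    ring
  -- norms
  have hk : ∀ k, ‖∫ x, ((g ((⇑S)^[b k] x) : ℝ) : ℂ) * W k x ∂μ‖ ^ 2 ≤ ∫ x, ‖W k x‖ ^ 2 ∂μ := by
    intro k
    have h1 : ‖∫ x, ((g ((⇑S)^[b k] x) : ℝ) : ℂ) * W k x ∂μ‖ ≤ ∫ x, ‖W k x‖ ∂μ := by
      refine (norm_integral_le_integral_norm _).trans ?_
      refine integral_mono_of_nonneg (Filter.Eventually.of_forall fun x => norm_nonneg _) ?_
        (Filter.Eventually.of_forall fun x => ?_)
      · exact bd_int (hWm k).norm fun x => by
          rw [abs_norm]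
          exact hWb k x
      · simp only [norm_mul, Complex.norm_real, Real.norm_eq_abs]
        exact mul_le_of_le_one_left (norm_nonneg _) (hg.2 _)
    have h2 := sq_int_le (μ := μ) (hWm k).norm (c := ∑ p ∈ c.support, ‖c p‖) fun x => by
      rw [abs_norm]
      exact hWb k x
    exact (pow_le_pow_left₀ (norm_nonneg _) h1 2).trans h2
  have hsq : ‖(N : ℂ)⁻¹ * ∑ k ∈ Finset.range N, ∫ x, ((g ((⇑S)^[b k] x) : ℝ) : ℂ) * W k x ∂μ‖ ^ 2 ≤
      (N : ℝ)⁻¹ * ∑ k ∈ Finset.range N, ∫ x, ‖W k x‖ ^ 2 ∂μ := by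
    rcases Nat.eq_zero_or_pos N with h0 | h0
    · subst h0
      simp
    have hNp : (0 : ℝ) < N := by exact_mod_cast h0
    rw [norm_mul, norm_inv, Complex.norm_natCast, mul_pow]
    have h1 : ‖∑ k ∈ Finset.range N, ∫ x, ((g ((⇑S)^[b k] x) : ℝ) : ℂ) * W k x ∂μ‖ ^ 2 ≤
        N * ∑ k ∈ Finset.range N, ∫ x, ‖W k x‖ ^ 2 ∂μ := by
      refine (pow_le_pow_left₀ (norm_nonneg _) (norm_sum_le _ _) 2).trans ?_
      refine (sq_sum_le_card_mul_sum_sq (s := Finset.range N)).trans ?_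
      rw [Finset.card_range]
      exact mul_le_mul_of_nonneg_left (Finset.sum_le_sum fun k _ => hk k) hNp.le
    have h2 := mul_le_mul_of_nonneg_left h1 (show (0 : ℝ) ≤ ((N : ℝ)⁻¹) ^ 2 by positivity)
    refine h2.trans (le_of_eq ?_)
    field_simp
  rw [hsum]
  refine hsq.trans (le_of_eq ?_)
  have hexp : ∀ k, ∫ x, ‖W k x‖ ^ 2 ∂μ = ∑ p ∈ c.support, ∑ q ∈ c.support,
      (c p * conj (c q)).re * ∫ x, (h (zp R (-p.2) x) * h (zp R (-q.2) x)) *
          (f (zp R (p.1 - p.2) ((⇑T)^[a k] x)) * f (zp R (q.1 - q.2) ((⇑T)^[a k] x))) ∂μ := by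
    intro k
    have h1 : ∀ x, ‖W k x‖ ^ 2 = ∑ p ∈ c.support, ∑ q ∈ c.support,
        (c p * conj (c q)).re * (w k p x * w k q x) := fun x => norm_sq_sum _ _ _
    have hii : ∀ p q, Integrable (fun x => w k p x * w k q x) μ := by
      intro p q
      refine bd_int ((hwm k p).mul (hwm k q)) (c := 1) fun x => ?_
      rw [abs_mul]
      exact mul_le_one₀ (hwb k p x) (abs_nonneg _) (hwb k q x)
    rw [integral_congr_ae (Filter.Eventually.of_forall h1), integral_finsetSum]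
    · refine Finset.sum_congr rfl fun p _ => ?_
      rw [integral_finsetSum]
      · refine Finset.sum_congr rfl fun q _ => ?_
        rw [integral_const_mul]
        congr 1
        refine integral_congr_ae (Filter.Eventually.of_forall fun x => ?_)
        simp only [hw]
        ring
      · intro q _
        exact (hii p q).const_mul _
    · intro p _
      exact integrable_finsetSum _ fun q _ => (hii p q).const_mul _
  simp only [hexp]
  rw [Finset.sum_comm, Finset.mul_sum]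
  refine Finset.sum_congr rfl fun p _ => ?_
  rw [Finset.sum_comm, Finset.mul_sum]
  refine Finset.sum_congr rfl fun q _ => ?_
  rw [← Finset.mul_sum]
  ring

/-- **LF2.** -/
theorem gLF2 : Pool.Agent.Helper57.SS.G_LF2 := by
  intro hE1 hEL hHZ hZP hVN hRPD α _ μ _ T S R a b f g U Nj h φ r hL c
  obtain ⟨hW, hs, hf, hg, hN, hh, hφ, hr⟩ := hL
  obtain ⟨z0, z1, z2, z3, z4, z5, z6⟩ := hZP α R
  have hTm : ∀ k, Measurable ((⇑T)^[k]) := fun k => T.measurable.iterate k
  rw [re_sum2 c fun p q => rr R μ f ((p.1 - p.2) - (q.1 - q.2)) * r (p.2 - q.2)]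
  -- left side
  have h1 : Tendsto (fun j => ‖c.sum fun p u =>
      u * ((PhN T S R μ a b f g (h j) (Nj j) p : ℝ) : ℂ)‖ ^ 2) U
      (𝓝 (‖c.sum fun p u => u * ((φ p : ℝ) : ℂ)‖ ^ 2)) := by
    unfold Finsupp.sum
    refine (Tendsto.norm (tendsto_finsetSum _ fun p _ => ?_)).pow 2
    exact ((Complex.continuous_ofReal.tendsto _).comp (hφ p)).const_mul _
  -- right side
  have h2 : ∀ p q : ℤ × ℤ, Tendsto (fun j => ((Nj j : ℕ) : ℝ)⁻¹ * ∑ k ∈ Finset.range (Nj j),
      ∫ x, (h j (zp R (-p.2) x) * h j (zp R (-q.2) x)) *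
        (f (zp R (p.1 - p.2) ((⇑T)^[a k] x)) * f (zp R (q.1 - q.2) ((⇑T)^[a k] x))) ∂μ) U
      (𝓝 (rr R μ f ((p.1 - p.2) - (q.1 - q.2)) * r (p.2 - q.2))) := by
    intro p q
    set F : α → ℝ := fun y => f (zp R (p.1 - p.2) y) * f (zp R (q.1 - q.2) y) with hF
    have hFB : Bd F := by
      refine ⟨(hf.1.comp (z4 _)).mul (hf.1.comp (z4 _)), fun x => ?_⟩
      simp only [hF, abs_mul]
      exact mul_le_one₀ (hf.2 _) (abs_nonneg _) (hf.2 _)
    have hHB : ∀ j, Bd (fun x => h j (zp R (-p.2) x) * h j (zp R (-q.2) x)) := by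
      intro j
      refine ⟨((hh j).1.comp (z4 _)).mul ((hh j).1.comp (z4 _)), fun x => ?_⟩
      simp only [abs_mul]
      exact mul_le_one₀ ((hh j).2 _) (abs_nonneg _) ((hh j).2 _)
    have hFi : ∫ x, F x ∂μ = rr R μ f ((p.1 - p.2) - (q.1 - q.2)) := by
      have h3 := int_zp hZP R hs.mR (F := fun x => f (zp R ((p.1 - p.2) - (q.1 - q.2)) x) * f x)
        ((hf.1.comp (z4 _)).mul hf.1) (q.1 - q.2)
      unfold rr
      rw [← h3]
      refine integral_congr_ae (Filter.Eventually.of_forall fun x => ?_)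
      simp only [hF, ← z3]
      congr 3
      ring
    have hHi : ∀ j, ∫ x, h j (zp R (-p.2) x) * h j (zp R (-q.2) x) ∂μ =
        rr R μ (h j) (p.2 - q.2) := by
      intro j
      have h3 := int_zp hZP R hs.mR (F := fun x => h j (zp R (p.2 - q.2) x) * h j x)
        (((hh j).1.comp (z4 _)).mul (hh j).1) (-p.2)
      unfold rr
      rw [← h3]
      refine integral_congr_ae (Filter.Eventually.of_forall fun x => ?_)
      simp only [← z3]
      have e : p.2 - q.2 + -p.2 = -q.2 := by ring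
      rw [e]
      ring
    have h4 : Tendsto (fun j => rr R μ (h j) (p.2 - q.2) *
        rr R μ f ((p.1 - p.2) - (q.1 - q.2))) U
        (𝓝 (r (p.2 - q.2) * rr R μ f ((p.1 - p.2) - (q.1 - q.2)))) := (hr _).mul_const _
    rw [mul_comm (r (p.2 - q.2))] at h4
    have h5 : Tendsto (fun j => (((Nj j : ℕ) : ℝ)⁻¹ * ∑ k ∈ Finset.range (Nj j),
      ∫ x, (h j (zp R (-p.2) x) * h j (zp R (-q.2) x)) * F ((⇑T)^[a k] x) ∂μ) -
      rr R μ (h j) (p.2 - q.2) * rr R μ f ((p.1 - p.2) - (q.1 - q.2))) U (𝓝 0) := by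
      rw [Metric.tendsto_nhds]
      intro ε hε
      have h6 := hE1 hEL hHZ hZP hVN a b hW α μ T hs.eT F hFB (ε / 2) (by positivity)
      filter_upwards [hN.eventually h6] with j hj
      have h7 := hj _ (hHB j)
      rw [hHi j, hFi] at h7
      rw [dist_zero_right, Real.norm_eq_abs]
      linarith
    have h8 := h5.add h4
    simp only [sub_add_cancel, zero_add] at h8
    exact h8
  have h3 := tendsto_finsetSum (f := fun (p : ℤ × ℤ) j => ∑ q ∈ c.support,
      (c p * conj (c q)).re * (((Nj j : ℕ) : ℝ)⁻¹ * ∑ k ∈ Finset.range (Nj j),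
      ∫ x, (h j (zp R (-p.2) x) * h j (zp R (-q.2) x)) *
        (f (zp R (p.1 - p.2) ((⇑T)^[a k] x)) * f (zp R (q.1 - q.2) ((⇑T)^[a k] x))) ∂μ))
      (x := (U : Filter ℕ)) c.support fun p _ =>
      tendsto_finsetSum c.support fun q _ => (h2 p q).const_mul (c p * conj (c q)).re
  exact le_of_tendsto_of_tendsto' h1 h3 fun j =>
    one_step hZP μ T S R a b hs hf hg (hh j) (Nj j) c

end Pool.Agent.Helper93.SS
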